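import Pool.Agent.H.MP_89f84f_ag.P13Fin

/-!
# Quadratic points on abelian surfaces whose Kummer surface has a genus one fibration
(MP_89f84f_ag)

Let `k` be a number field, let `T` be the affine surface
`A(t) u ^ 2 + B(x, t) u + (x - t) C(x, t) = 0` over `k`, where `B` and `C` are polynomials of degree
at most two and three in `x`, and let `S` be its double covering `y ^ 2 = u Q(x, t, u)`. The surface
`T` is fibred by the curves `T_t` of genus one, which are double coverings of the `x`-line, and it
has the sections `P = (t, t, 0)` and `P' = (t, t, -B(t, t) / A(t))`. If `B(t, t)` is not zero and has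
a root `t₀` (so that `P` and `P'` meet over `t₀`) at which `A(t)`, `C(t, t)` and `Q(t, t, 0)` do not
vanish, then the quadratic points are dense in every `k`-scheme which is birational to `S`, and in
every separated `k`-scheme `X` with a dominant morphism `j` to `X` from an open subscheme of `S`,
unless `j` is invariant under `y ↦ -y`. The proof: at the points `P + n (P' - P)`, near `t₀`, the
function `u` is `-n q` up to higher order, where `q = B(t, t) / A(t)`, so for infinitely many `n` the
restriction of `u Q` to this section is not a square, and almost all points of such a section over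
those of the infinitely many parameters `t` in `k` for which the value of `u Q` is not a square are
images of quadratic points of `S`.

## How abelian surfaces come in (not formalised)

Let `X` be an abelian surface over `k`. The blow-up of `X` at the sixteen points of order at most
two is a double covering of the Kummer surface `Y` of `X`, branched along the sixteen exceptional
curves, and the exceptional curve `E₀` of the origin is a projective line over `k`. Suppose that `Y`
has a fibration `Y → P¹` over `k` in curves of genus one such that `E₀` is not contained in a fibre.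
Let `t` be a coordinate of `E₀`, let `T → E₀` be the base change of the fibration to `E₀` and `P` its
section defined by `E₀`, and let `P'` be another section over `k`. Let `x` be the function of degree
two on the generic fibre given by the divisor `P + P'`, with `x = t` at `P`, and `u` a function with
poles of degree two in `x` which vanishes at `P`. Then `T` has an equation as above; the base change
of the double covering `X → Y` is a double covering `S` of `T`, and `j : S → X` is dominant, and is
not invariant, because its composition with the involution is `-j`. If `P` and `P'` meet over `t₀` in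
a smooth point of the fibre at which `S → T` is branched only along `P`, then `P` has there a local
equation `u = 0` for suitable `x` and `u`, and `S` is given by the square root of `u Q` with
`Q(t₀, t₀, 0) ≠ 0`. Such a `t₀` exists, possibly after the replacement of `P'` by
`P + m (P' - P)`, whenever `P' - P` is not a torsion point of the Jacobian of the generic fibre: the
number of the points in which `P` and `P + m (P' - P)` meet tends to infinity by the theory of
heights, while the multiplicities over the finitely many bad parameters remain bounded. If the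
degree of `E₀ → P¹` is at least two, then it is enough that this covering is ramified in a point
which is a smooth point of its fibre: there two conjugates of `P` meet, so their difference is not
torsion, and so there is a section `P'` as required, with `P' - P` equal to the difference of a
multiple of `P` and a class which is defined over `k(P¹)`.

**Type (1, 2).** Every abelian surface `X` over `k` with a polarisation of type `(1, 2)`, which is
not a product of elliptic curves, is birational to such a surface `S` with `Q = 1`, that is, to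
`A(t) y ^ 4 + B(x, t) y ^ 2 + (x - t) C(x, t) = 0`: there is one line bundle `L` in the class of the
polarisation with the origin in the base locus of the pencil `|L|`; let `t` be the parameter of this
pencil of curves `D_t` of genus three, identified with the tangent direction of `D_t` at the origin,
and let `x` be the tangent direction at the point. The quotient of `D_t` by `-1` is a double
covering of the `x`-line of genus one, and `D_t` is its double covering given by the square root `y`
of a function which has poles of degree two in `x` and vanishes at the four base points, which are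
the kernel of the polarisation; the origin is the base point with `x = t`.

If `X` is geometrically simple, then the hypotheses on the root always hold if the coordinate `t` is
chosen such that the form `β` below is not zero at infinity. A curve `D_t` is irreducible: there is
no elliptic curve on `X`, so a reducible one would have a self-intersection number of at least
`2 + 2 + 2 * 2`. It has geometric genus at least two, so it is smooth up to at most one double
point, which is a node at a point `q` of order two outside of the kernel `K(L)`; this happens for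
twelve different values `t_q`. The tangent direction `x` and `t` make the Kummer surface a finite
double covering of `P¹ × P¹`, with a smooth branch curve `Δ = 0` of bidegree `(4, 4)`. Here `A` is
the product of the `t - t_q`, the bidegrees of `B` and `(x - t) C` are `(2, 8)` and `(4, 4)`, and
`B ^ 2 - 4 A (x - t) C = g(t) ^ 2 Δ`, where the six roots of `g`, which are the roots of `C(t, t)`,
are the fixed points of `K(L)` on the `t`-line. So `B(t, t) = g β` with a form `β` of degree four,
which is not zero since `Δ = 0` is smooth. A root `t₀` of `β` is a parameter for which the origin is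
a ramification point of the double covering of the `x`-line; so `C(t₀, t₀) ≠ 0`, since over a root
of `g` the function `y ^ 2` is a function of `x` with four different zeros on `D_t / (-1)`, and
`A(t₀) ≠ 0`, since over `t_q` the ramification points are the intersection points of two components,
and the origin is on only one of them.

**Type (1, 3).** For a polarisation `L` of type `(1, 3)` on a geometrically simple surface the even
(or odd) sections of a line bundle in the class of `2 L` which vanish at all the sixteen points map
`Y` to a quartic surface in `P³` on which the sixteen exceptional curves are lines (for a general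
surface it is smooth). The planes which contain the line `E₀` give a fibration by plane cubics, `E₀`
is a covering of degree three of its base, and for `P'` one can take the second intersection point
of the cubic with its tangent at `P`; then `t₀` is a parameter for which `P` is a flex of the cubic.
For a general surface there are eight such parameters, besides the ten at which the tangent is
contained in the cubic, and the four ramification points of `E₀ → P¹` are smooth points of the
fibres.

An abelian surface over `k` with a polarisation of type `(1, d)` is isogenous over `k` to one with a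
polarisation of type `(1, d')`, where `d'` is the squarefree part of `d`. So the theorem applies to
all geometrically simple abelian surfaces with a polarisation over `k` of type `(1, 2 m ^ 2)`. For
the geometric Picard number one and `d' ≠ 2` the Pell equation `l ^ 2 - 2 d' m ^ 2 = 1` gives a
symmetric curve over `k` (Bauer and Szemberg) whose quotient by `-1` is a projective line over `k`,
so a quadratic point `P` of infinite order with conjugate `-P`, whose multiples are dense; there is
no such equation for `d' = 2`, so that case needs the theorem of this file.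
-/

open AlgebraicGeometry CategoryTheory

noncomputable section

namespace Pool.Agent.Results.MP_89f84f_ag.Fibrations

section ring

variable {k : Type} [Field k]

/-- The polynomial `A(t) u ^ 2 + B(x, t) u + (x - t) C(x, t)` in the variables `x = X 0`,
`t = X 1` and `u = X 2`; here `A ∈ k[t]`, and `B` and `C` are polynomials in `x` with coefficients
in `k[t]`. -/
def equation (A : Polynomial k) (B C : Polynomial (Polynomial k)) : MvPolynomial (Fin 3) k :=
  Polynomial.aeval (MvPolynomial.X 1) A * MvPolynomial.X 2 ^ 2 +
    Polynomial.aevalAeval (MvPolynomial.X 1) (MvPolynomial.X 0) B * MvPolynomial.X 2 +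
    (MvPolynomial.X 0 - MvPolynomial.X 1) *
      Polynomial.aevalAeval (MvPolynomial.X 1) (MvPolynomial.X 0) C

/-- A polynomial in `x, t, u` as a polynomial in `x, t, u, y`, where `y = X 3`. -/
def incl : MvPolynomial (Fin 3) k →ₐ[k] MvPolynomial (Fin 4) k :=
  MvPolynomial.rename Fin.castSucc

/-- The ideal generated by `A(t) u ^ 2 + B(x, t) u + (x - t) C(x, t)` and `y ^ 2 - u Q(x, t, u)`. -/
def SIdeal (A : Polynomial k) (B C : Polynomial (Polynomial k)) (Q : MvPolynomial (Fin 3) k) :
    Ideal (MvPolynomial (Fin 4) k) :=
  Ideal.span {incl (equation A B C), MvPolynomial.X 3 ^ 2 - MvPolynomial.X 2 * incl Q}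

/-- The coordinate ring of the surface `S`. -/
abbrev SRing (A : Polynomial k) (B C : Polynomial (Polynomial k)) (Q : MvPolynomial (Fin 3) k) :
    Type := MvPolynomial (Fin 4) k ⧸ SIdeal A B C Q

/-- The function `f(x, t, u)` on the surface `S`. -/
def fn (A : Polynomial k) (B C : Polynomial (Polynomial k)) (Q f : MvPolynomial (Fin 3) k) :
    SRing A B C Q := Ideal.Quotient.mk (SIdeal A B C Q) (incl f)

/-- The coordinate ring of the open subscheme `f ≠ 0` of the surface `S`. -/
abbrev ORing (A : Polynomial k) (B C : Polynomial (Polynomial k)) (Q f : MvPolynomial (Fin 3) k) :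
    Type := Localization.Away (fn A B C Q f)

/-- The open subscheme `f ≠ 0` of the surface `S`, as a scheme over `k`. -/
def openPart (A : Polynomial k) (B C : Polynomial (Polynomial k)) (Q f : MvPolynomial (Fin 3) k) :
    Over (Spec (CommRingCat.of k)) :=
  Over.mk (Spec.map (CommRingCat.ofHom (algebraMap k (ORing A B C Q f))))

/-- The inclusion of the open subscheme `f ≠ 0` of `S` into the affine space with the coordinates
`x, t, u, y`. -/
def coord (A : Polynomial k) (B C : Polynomial (Polynomial k)) (Q f : MvPolynomial (Fin 3) k) :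
    (openPart A B C Q f).left ⟶ Spec (CommRingCat.of (MvPolynomial (Fin 4) k)) :=
  Spec.map (CommRingCat.ofHom (algebraMap (MvPolynomial (Fin 4) k) (ORing A B C Q f)))

/-- The automorphism `y ↦ -y` of `k[x, t, u, y]`. -/
def neg4 : MvPolynomial (Fin 4) k →ₐ[k] MvPolynomial (Fin 4) k :=
  MvPolynomial.aeval (fun i => if i = 3 then -MvPolynomial.X 3 else MvPolynomial.X i)

/-- The automorphism `(x, t, u, y) ↦ (x, t, u, -y)` of the affine space. -/
def negY (k : Type) [Field k] : Spec (CommRingCat.of (MvPolynomial (Fin 4) k)) ⟶
    Spec (CommRingCat.of (MvPolynomial (Fin 4) k)) :=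
  Spec.map (CommRingCat.ofHom (neg4 (k := k)).toRingHom)

/-- The morphism `j` is not invariant under the involution `i` of the open subscheme `f ≠ 0` of `S`
which is the restriction of `(x, t, u, y) ↦ (x, t, u, -y)` (such an `i` exists by
`exists_involution`, and it is unique). -/
def NotInvariant (A : Polynomial k) (B C : Polynomial (Polynomial k))
    (Q f : MvPolynomial (Fin 3) k) (X : Over (Spec (CommRingCat.of k)))
    (j : openPart A B C Q f ⟶ X) : Prop :=
  ∃ i : (openPart A B C Q f).left ⟶ (openPart A B C Q f).left,
    i ≫ coord A B C Q f = coord A B C Q f ≫ negY k ∧ i ≫ j.left ≠ j.left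

theorem neg4_incl (G : MvPolynomial (Fin 3) k) : neg4 (incl G) = incl G := by
  have h : (neg4 (k := k)).comp incl = incl := by
    apply MvPolynomial.algHom_ext
    intro i
    rw [AlgHom.comp_apply, incl, MvPolynomial.rename_X, neg4, MvPolynomial.aeval_X, if_neg]
    exact (Fin.castSucc_lt_last i).ne
  exact congrArg (fun f => f G) h

theorem neg4_y : neg4 (MvPolynomial.X 3 : MvPolynomial (Fin 4) k) = -MvPolynomial.X 3 := by
  rw [neg4, MvPolynomial.aeval_X, if_pos rfl]

theorem neg4_u : neg4 (MvPolynomial.X 2 : MvPolynomial (Fin 4) k) = MvPolynomial.X 2 := by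
  rw [neg4, MvPolynomial.aeval_X, if_neg (by decide)]

/-- The automorphism `y ↦ -y` of the coordinate ring of `S`. -/
def negS (A : Polynomial k) (B C : Polynomial (Polynomial k)) (Q : MvPolynomial (Fin 3) k) :
    SRing A B C Q →ₐ[k] SRing A B C Q :=
  Ideal.Quotient.liftₐ (SIdeal A B C Q) ((Ideal.Quotient.mkₐ k (SIdeal A B C Q)).comp neg4) (by
    intro a ha
    obtain ⟨c, d, rfl⟩ := Ideal.mem_span_pair.1 ha
    rw [AlgHom.comp_apply, map_add, map_mul, map_mul, neg4_incl, map_sub, map_mul, map_pow,
      neg4_y, neg4_u, neg4_incl, neg_sq]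
    exact Ideal.Quotient.eq_zero_iff_mem.2 (Ideal.mem_span_pair.2 ⟨_, _, rfl⟩))

theorem negS_mk (A : Polynomial k) (B C : Polynomial (Polynomial k))
    (Q : MvPolynomial (Fin 3) k) (G : MvPolynomial (Fin 4) k) :
    negS A B C Q (Ideal.Quotient.mk _ G) = Ideal.Quotient.mk _ (neg4 G) := rfl

theorem negS_fn (A : Polynomial k) (B C : Polynomial (Polynomial k))
    (Q G : MvPolynomial (Fin 3) k) : negS A B C Q (fn A B C Q G) = fn A B C Q G := by
  rw [fn, negS_mk, neg4_incl]

/-- The automorphism `y ↦ -y` of the coordinate ring of the open subscheme `f ≠ 0` of `S`. -/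
def negO (A : Polynomial k) (B C : Polynomial (Polynomial k)) (Q f : MvPolynomial (Fin 3) k) :
    ORing A B C Q f →ₐ[k] ORing A B C Q f :=
  IsLocalization.liftAlgHom (M := Submonoid.powers (fn A B C Q f))
    (f := (IsScalarTower.toAlgHom k (SRing A B C Q) (ORing A B C Q f)).comp (negS A B C Q)) (by
      rintro ⟨_, m, rfl⟩
      show IsUnit (algebraMap (SRing A B C Q) (ORing A B C Q f)
        (negS A B C Q (fn A B C Q f ^ m)))
      rw [map_pow, negS_fn, map_pow]
      exact (IsLocalization.Away.algebraMap_isUnit (fn A B C Q f)).pow m)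

theorem negO_algebraMap (A : Polynomial k) (B C : Polynomial (Polynomial k))
    (Q f : MvPolynomial (Fin 3) k) (r : SRing A B C Q) :
    negO A B C Q f (algebraMap _ _ r) = algebraMap _ _ (negS A B C Q r) :=
  IsLocalization.lift_eq _ r

theorem negO_incl (A : Polynomial k) (B C : Polynomial (Polynomial k))
    (Q f G : MvPolynomial (Fin 3) k) : negO A B C Q f (algebraMap (SRing A B C Q) _
      (Ideal.Quotient.mk (SIdeal A B C Q) (incl G))) = algebraMap (SRing A B C Q) _
      (Ideal.Quotient.mk (SIdeal A B C Q) (incl G)) := by
  rw [negO_algebraMap, negS_mk, neg4_incl]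

theorem negO_y (A : Polynomial k) (B C : Polynomial (Polynomial k))
    (Q f : MvPolynomial (Fin 3) k) : negO A B C Q f (algebraMap (SRing A B C Q) _
      (Ideal.Quotient.mk (SIdeal A B C Q) (MvPolynomial.X 3))) = -algebraMap (SRing A B C Q) _
      (Ideal.Quotient.mk (SIdeal A B C Q) (MvPolynomial.X 3)) := by
  rw [negO_algebraMap, negS_mk, neg4_y, map_neg, map_neg]

/-- The involution of the open subscheme `f ≠ 0` of `S` exists. -/
theorem exists_involution (A : Polynomial k) (B C : Polynomial (Polynomial k))
    (Q f : MvPolynomial (Fin 3) k) :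
    ∃ i : (openPart A B C Q f).left ⟶ (openPart A B C Q f).left,
      i ≫ coord A B C Q f = coord A B C Q f ≫ negY k := by
  refine ⟨Spec.map (CommRingCat.ofHom (negO A B C Q f).toRingHom), ?_⟩
  show Spec.map _ ≫ Spec.map _ = Spec.map _ ≫ Spec.map _
  rw [← Spec.map_comp, ← Spec.map_comp, ← CommRingCat.ofHom_comp, ← CommRingCat.ofHom_comp]
  congr 2
  apply RingHom.ext
  intro G
  exact negO_algebraMap A B C Q f (Ideal.Quotient.mk (SIdeal A B C Q) G)

/-- The involution as an endomorphism of the coordinate ring. -/
theorem involution_ring (A : Polynomial k) (B C : Polynomial (Polynomial k))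
    (Q f : MvPolynomial (Fin 3) k) (i : (openPart A B C Q f).left ⟶ (openPart A B C Q f).left)
    (hi : i ≫ coord A B C Q f = coord A B C Q f ≫ negY k) :
    ∃ φ : ORing A B C Q f →ₐ[k] ORing A B C Q f,
      i = Spec.map (CommRingCat.ofHom φ.toRingHom) ∧
      ∀ G : MvPolynomial (Fin 4) k, φ (algebraMap (SRing A B C Q) _
        (Ideal.Quotient.mk (SIdeal A B C Q) G)) = algebraMap (SRing A B C Q) _
        (Ideal.Quotient.mk (SIdeal A B C Q) (neg4 G)) := by
  obtain ⟨ψ, hψ⟩ := Spec.map_surjective (R := CommRingCat.of (ORing A B C Q f))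
    (S := CommRingCat.of (ORing A B C Q f)) i
  have h1 : Spec.map (CommRingCat.ofHom (algebraMap (MvPolynomial (Fin 4) k)
      (ORing A B C Q f)) ≫ ψ) = Spec.map (CommRingCat.ofHom (neg4 (k := k)).toRingHom ≫
      CommRingCat.ofHom (algebraMap (MvPolynomial (Fin 4) k) (ORing A B C Q f))) := by
    rw [Spec.map_comp, Spec.map_comp, hψ]
    exact hi
  have h2 := Spec.map_injective h1
  have h3 : ∀ G : MvPolynomial (Fin 4) k, ψ.hom (algebraMap (MvPolynomial (Fin 4) k)
      (ORing A B C Q f) G) = algebraMap (MvPolynomial (Fin 4) k) (ORing A B C Q f) (neg4 G) :=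
    fun G => congrArg (fun g => g.hom G) h2
  have h4 : ∀ c : k, ψ.hom (algebraMap k (ORing A B C Q f) c) =
      algebraMap k (ORing A B C Q f) c := by
    intro c
    rw [IsScalarTower.algebraMap_apply k (MvPolynomial (Fin 4) k) (ORing A B C Q f) c]
    rw [h3, AlgHom.commutes]
  exact ⟨{ ψ.hom with commutes' := h4 }, hψ.symm, h3⟩

end ring

/-- The points of degree two of a `k`-scheme: those which are the image of `Spec L` for a field
extension `L` of degree two, but not of `Spec k`. -/
def QuadPts (k : Type) [Field k] (A : Over (Spec (CommRingCat.of k))) : Set A.left :=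
  {x : A.left |
    (∃ (L : Type) (_ : Field L) (_ : Algebra k L),
      Module.finrank k L = 2 ∧
      ∃ g : Spec (CommRingCat.of L) ⟶ A.left,
        g ≫ A.hom = Spec.map (CommRingCat.ofHom (algebraMap k L)) ∧
        ∃ p, g.base p = x) ∧
    ¬ ∃ s : Spec (CommRingCat.of k) ⟶ A.left, s ≫ A.hom = 𝟙 _ ∧ ∃ p, s.base p = x}

open Polynomial in
theorem eq_of_le_two {R : Type} [CommRing R] (p : R[X]) (hp : p.natDegree ≤ 2) :
    p = C (p.coeff 0) + C (p.coeff 1) * X + C (p.coeff 2) * X ^ 2 := by
  conv_lhs => rw [p.as_sum_range_C_mul_X_pow' (n := 3) (by omega)]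
  simp [Finset.sum_range_succ]

open Polynomial in
theorem eq_of_le_three {R : Type} [CommRing R] (p : R[X]) (hp : p.natDegree ≤ 3) :
    p = C (p.coeff 0) + C (p.coeff 1) * X + C (p.coeff 2) * X ^ 2 + C (p.coeff 3) * X ^ 3 := by
  conv_lhs => rw [p.as_sum_range_C_mul_X_pow' (n := 4) (by omega)]
  simp [Finset.sum_range_succ]

theorem equation_eq {k : Type} [Field k] (A : Polynomial k) (B C : Polynomial (Polynomial k))
    (hB : B.natDegree ≤ 2) (hC : C.natDegree ≤ 3) :
    equation A B C = P12.equationT A (B.coeff 0) (B.coeff 1) (B.coeff 2) (C.coeff 0) (C.coeff 1)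
      (C.coeff 2) (C.coeff 3) := by
  unfold equation P12.equationT
  conv_lhs => rw [eq_of_le_two B hB, eq_of_le_three C hC]
  simp only [map_add, map_mul, map_pow, Polynomial.aevalAeval_C, Polynomial.aevalAeval_Y]

/-- The value of `Q(t, t, 0)` at `t₀`. -/
theorem aeval_diag0 {k F : Type} [Field k] [Field F] [Algebra k F] (Q : MvPolynomial (Fin 3) k)
    (t₀ : F) : Polynomial.aeval t₀ (P12.diag0 (P12.emb k Q)) =
      MvPolynomial.aeval ![t₀, t₀, 0] Q := by
  have h : ((Polynomial.aeval t₀ : Polynomial k →ₐ[k] F).toRingHom.comp
      ((Polynomial.evalRingHom (Polynomial.X : Polynomial k)).comp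
        (Polynomial.evalRingHom (0 : Polynomial (Polynomial k))))).comp (P12.emb k).toRingHom =
      (MvPolynomial.aeval ![t₀, t₀, 0] : MvPolynomial (Fin 3) k →ₐ[k] F).toRingHom := by
    apply MvPolynomial.ringHom_ext
    · intro c
      simp [P12.emb, Polynomial.algebraMap_apply]
    · intro i
      fin_cases i
      · simp [P12.emb]
      · simp [P12.emb]
      · simp [P12.emb]
  exact congrArg (fun g => g Q) h

/-- The general theorem in terms of the coefficients. -/
theorem dense_aux (k : Type) [Field k] [NumberField k] (F : Type) [Field F] [CharZero F]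
    [Algebra k F] (A : Polynomial k) (B C : Polynomial (Polynomial k)) (t₀ : F)
    (h₁ : P12.diag2 (B.coeff 0) (B.coeff 1) (B.coeff 2) ≠ 0)
    (h₀ : Polynomial.aeval t₀ (P12.diag2 (B.coeff 0) (B.coeff 1) (B.coeff 2)) = 0)
    (hA : Polynomial.aeval t₀ A ≠ 0)
    (hC : Polynomial.aeval t₀ (P12.diag3 (C.coeff 0) (C.coeff 1) (C.coeff 2) (C.coeff 3)) ≠ 0)
    (Q f : MvPolynomial (Fin 3) k) (hQ : Polynomial.aeval t₀ (P12.diag0 (P12.emb k Q)) ≠ 0)
    (hf : Polynomial.aeval (MvPolynomial.X 1) A ∣ f)
    (e : MvPolynomial (Fin 3) k) (he : e = P12.equationT A (B.coeff 0) (B.coeff 1) (B.coeff 2)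
      (C.coeff 0) (C.coeff 1) (C.coeff 2) (C.coeff 3)) :
    (∀ (ι : Localization.Away (Ideal.Quotient.mk (P12.ideal4 e Q) (P12.ren k f)) →ₐ[k]
        Localization.Away (Ideal.Quotient.mk (P12.ideal4 e Q) (P12.ren k f))),
      (∀ G : MvPolynomial (Fin 3) k, ι (algebraMap _ _
        (Ideal.Quotient.mk (P12.ideal4 e Q) (P12.ren k G))) =
        algebraMap _ _ (Ideal.Quotient.mk (P12.ideal4 e Q) (P12.ren k G))) →
      ι (algebraMap _ _ (Ideal.Quotient.mk (P12.ideal4 e Q) (MvPolynomial.X 3))) =
        -algebraMap _ _ (Ideal.Quotient.mk (P12.ideal4 e Q) (MvPolynomial.X 3)) →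
      ∀ (S : Over (Spec (CommRingCat.of k))) (_ : IsSeparated S.hom)
        (j : Spec (CommRingCat.of (Localization.Away
          (Ideal.Quotient.mk (P12.ideal4 e Q) (P12.ren k f)))) ⟶ S.left),
        j ≫ S.hom = Spec.map (CommRingCat.ofHom (algebraMap k (Localization.Away
          (Ideal.Quotient.mk (P12.ideal4 e Q) (P12.ren k f))))) →
        Dense (Set.range j.base) →
        Spec.map (CommRingCat.ofHom ι.toRingHom) ≫ j ≠ j → Dense (WRes.QuadPts k S)) ∧
    (Nontrivial (Localization.Away (Ideal.Quotient.mk (P12.ideal4 e Q) (P12.ren k f))) →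
      algebraMap _ (Localization.Away (Ideal.Quotient.mk (P12.ideal4 e Q) (P12.ren k f)))
      (Ideal.Quotient.mk (P12.ideal4 e Q) (MvPolynomial.X 3)) ≠ 0) ∧
    (Nontrivial (Localization.Away (Ideal.Quotient.mk (P12.ideal4 e Q) (P12.ren k f))) →
      IsDomain (Localization.Away (Ideal.Quotient.mk (P12.ideal4 e Q) (P12.ren k f)))) := by
  subst he
  refine ⟨?_, ?_, ?_⟩
  · intro ι hι1 hι2 S _ j hj hd hne
    exact P12.dense_surface3 A (B.coeff 0) (B.coeff 1) (B.coeff 2) (C.coeff 0) (C.coeff 1)
      (C.coeff 2) (C.coeff 3) t₀ h₁ h₀ hA hC Q f hQ hf _ ι hι1 hι2 S j hj hd hne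
  · intro h
    exact P12.y_ne_zero A (B.coeff 0) (B.coeff 1) (B.coeff 2) (C.coeff 0) (C.coeff 1)
      (C.coeff 2) (C.coeff 3) t₀ h₁ h₀ hA hC Q f hQ hf _
  · intro h
    exact P12.isDomain_of_nontrivial A (B.coeff 0) (B.coeff 1) (B.coeff 2) (C.coeff 0) (C.coeff 1)
      (C.coeff 2) (C.coeff 3) t₀ h₁ h₀ hA hC Q f hQ hf _

/-- **Theorem.** Let `k` be a number field, `A ∈ k[t]` and `B, C ∈ k[t][x]` of degrees at most two
and three in `x`, and `Q ∈ k[x, t, u]`. Suppose that `B(t, t)` is not zero and has a root `t₀` with
`A(t₀) ≠ 0`, `C(t₀, t₀) ≠ 0` and `Q(t₀, t₀, 0) ≠ 0`. Let `S` be the affine surface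
`A(t) u ^ 2 + B(x, t) u + (x - t) C(x, t) = 0`, `y ^ 2 = u Q(x, t, u)`, let `S' ⊆ S` be the open
subscheme `f ≠ 0` for a polynomial `f(x, t, u)` which is divisible by `A(t)`, and let `j : S' → X`
be a dominant morphism of `k`-schemes. If `j` is an open immersion, or if `X` is separated and `j`
is not invariant under the involution `y ↦ -y` of `S'`, then the quadratic points of `X` are
dense. -/
theorem result (k : Type) [Field k] [NumberField k]
    (A : Polynomial k) (B C : Polynomial (Polynomial k))
    (hB : B.natDegree ≤ 2) (hC : C.natDegree ≤ 3)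
    (h₁ : B.eval Polynomial.X ≠ 0)
    (t₀ : AlgebraicClosure k)
    (h₀ : Polynomial.aeval t₀ (B.eval Polynomial.X) = 0)
    (hA₀ : Polynomial.aeval t₀ A ≠ 0)
    (hC₀ : Polynomial.aeval t₀ (C.eval Polynomial.X) ≠ 0)
    (Q f : MvPolynomial (Fin 3) k)
    (hQ₀ : MvPolynomial.aeval ![t₀, t₀, 0] Q ≠ 0)
    (hf : Polynomial.aeval (MvPolynomial.X 1) A ∣ f)
    (X : Over (Spec (CommRingCat.of k))) (j : openPart A B C Q f ⟶ X) [hd : IsDominant j.left]
    (hj : IsOpenImmersion j.left ∨ (IsSeparated X.hom ∧ NotInvariant A B C Q f X j)) :
    Dense (QuadPts k X) := by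
  have hd2 : B.eval Polynomial.X = P12.diag2 (B.coeff 0) (B.coeff 1) (B.coeff 2) := by
    conv_lhs => rw [eq_of_le_two B hB]
    simp [P12.diag2]
  have hd3 : C.eval Polynomial.X =
      P12.diag3 (C.coeff 0) (C.coeff 1) (C.coeff 2) (C.coeff 3) := by
    conv_lhs => rw [eq_of_le_three C hC]
    simp [P12.diag3]
  rw [hd2] at h₀ h₁
  rw [hd3] at hC₀
  obtain ⟨key, hy, -⟩ := dense_aux k (AlgebraicClosure k) A B C t₀ h₁ h₀ hA₀ hC₀ Q f
    (by rw [aeval_diag0]; exact hQ₀) hf (equation A B C) (equation_eq A B C hB hC)
  have hι1 := negO_incl A B C Q f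
  have hι2 := negO_y A B C Q f
  rcases hj with hj | ⟨hX, i, hi, hj⟩
  · -- the open immersion
    by_cases hn : Nontrivial (ORing A B C Q f)
    · refine P12.dense_of_open k (ORing A B C Q f) (openPart A B C Q f) X j.left (Over.w j)
        hd.denseRange ?_
      refine key (negO A B C Q f) hι1 hι2 (openPart A B C Q f) ?_
        (𝟙 (Spec (CommRingCat.of (ORing A B C Q f)))) ?_ ?_ ?_
      · show IsSeparated (Spec.map _)
        infer_instance
      · exact Category.id_comp _
      · exact (Function.surjective_id.denseRange : DenseRange (id : Spec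
          (CommRingCat.of (ORing A B C Q f)) → Spec (CommRingCat.of (ORing A B C Q f))))
      · have h0 : Spec.map (CommRingCat.ofHom (negO A B C Q f).toRingHom) ≠
            𝟙 (Spec (CommRingCat.of (ORing A B C Q f))) := by
          rw [← Spec.map_id]
          intro h
          have h2 := Spec.map_injective h
          have h4 : negO A B C Q f (algebraMap (SRing A B C Q) _
              (Ideal.Quotient.mk (SIdeal A B C Q) (MvPolynomial.X 3))) =
              algebraMap (SRing A B C Q) _
              (Ideal.Quotient.mk (SIdeal A B C Q) (MvPolynomial.X 3)) :=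
            congrArg (fun g => g.hom (algebraMap (SRing A B C Q) _
              (Ideal.Quotient.mk (SIdeal A B C Q) (MvPolynomial.X 3)))) h2
          rw [hι2] at h4
          apply hy hn
          have h5 : (2 : ORing A B C Q f) * (algebraMap (SRing A B C Q) _
              (Ideal.Quotient.mk (SIdeal A B C Q) (MvPolynomial.X 3))) = 0 := by
            linear_combination -h4
          have h6 : IsUnit (2 : ORing A B C Q f) := by
            have h7 : IsUnit (algebraMap k (ORing A B C Q f) 2) :=
              (IsUnit.mk0 (2 : k) two_ne_zero).map _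
            rwa [map_ofNat] at h7
          exact h6.mul_right_eq_zero.1 h5
        intro h
        exact h0 ((Category.comp_id _).symm.trans h)
    · -- the empty scheme
      rw [not_nontrivial_iff_subsingleton] at hn
      have hem : IsEmpty (openPart A B C Q f).left :=
        (PrimeSpectrum.isEmpty_iff_subsingleton (R := ORing A B C Q f)).2 hn
      have h2 : IsEmpty X.left := by
        by_contra hne
        rw [not_isEmpty_iff] at hne
        obtain ⟨x⟩ := hne
        have h3 := hd.denseRange
        exact (not_isEmpty_iff.2 (h3.nonempty_iff.2 ⟨x⟩)) hem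
      intro x
      exact h2.elim x
  · obtain ⟨φ, rfl, hφ⟩ := involution_ring A B C Q f i hi
    refine key φ (fun G => ?_) ?_ X hX j.left (Over.w j) hd.denseRange hj
    · refine (hφ (incl G)).trans ?_
      rw [neg4_incl]
      rfl
    · refine (hφ (MvPolynomial.X 3)).trans ?_
      rw [neg4_y, map_neg, map_neg]
      rfl

/-!
## An explicit family

Let `c = X ^ 3 + a X + b` and `F = X ^ 4 - 2 a X ^ 2 - 8 b X + a ^ 2`. The four roots of
`F(x) c(t) - F(t) c(x)` are an orbit of a group of order four acting on the projective line, which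
has generators defined over the field of the roots of `c`. Let `α = a0 + a1 X + a2 X ^ 2` and let
`trᵢ` be the sum of `α(e) e ^ i` over the roots `e` of `c`. The surfaces below are birational to
abelian surfaces with a polarisation of type `(1, 2)`, whose kernel has a point of order two for
every root of `c`. (All such abelian surfaces for which the kernel acts on the parameter `∞` of the
pencil with an orbit of four elements arise in this way.) The theorem applies to them if `h` is not
zero and has a root `t₀` which is not a root of `w` and `A`; for example if `a = 0`, `α = 1`,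
`b μ ≠ 0` and `t₀ = 0`.
-/

section family

open Polynomial

variable {k : Type} [Field k] (a b : k)

/-- `c = X ^ 3 + a X + b`. -/
def cubic : k[X] := X ^ 3 + C a * X + C b

/-- `F = X ^ 4 - 2 a X ^ 2 - 8 b X + a ^ 2`. -/
def quartic : k[X] := X ^ 4 - 2 * C a * X ^ 2 - 8 * C b * X + C a ^ 2

/-- `w = F' c - F c'`, explicitly. -/
def sextic : k[X] :=
  (4 * X ^ 3 - 4 * C a * X - 8 * C b) * cubic a b - quartic a b * (3 * X ^ 2 + C a)

/-- The sum of `p0 + p1 e + p2 e ^ 2` over the roots `e` of `c`. -/
def tr0 (p0 p2 : k) : k := 3 * p0 - 2 * a * p2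

/-- The sum of `e (p0 + p1 e + p2 e ^ 2)` over the roots `e` of `c`. -/
def tr1 (p1 p2 : k) : k := -2 * a * p1 - 3 * b * p2

/-- The sum of `e ^ 2 (p0 + p1 e + p2 e ^ 2)` over the roots `e` of `c`. -/
def tr2 (p0 p1 p2 : k) : k := -2 * a * p0 - 3 * b * p1 + 2 * a ^ 2 * p2

/-- The polynomial `h`. -/
def hPoly (a0 a1 a2 : k) : k[X] :=
  C (tr0 a a0 a2) * X ^ 4 + 2 * C (tr1 a b a1 a2) * X ^ 3 +
    6 * C (a * tr0 a a0 a2 + tr2 a b a0 a1 a2) * X ^ 2 +
    2 * C (2 * b * tr0 a a0 a2 - a * tr1 a b a1 a2) * X +
    C (a ^ 2 * tr0 a a0 a2 + 2 * a * tr2 a b a0 a1 a2 - 4 * b * tr1 a b a1 a2)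

/-- The coefficient `A` of `y ^ 4`; here `r0 + r1 X + r2 X ^ 2` is `α ^ 2` modulo `c`. -/
def APoly (a0 a1 a2 μ : k) : k[X] :=
  let r0 := a0 ^ 2 - 2 * a1 * a2 * b
  let r1 := 2 * a0 * a1 - 2 * a1 * a2 * a - a2 ^ 2 * b
  let r2 := a1 ^ 2 + 2 * a0 * a2 - a2 ^ 2 * a
  C (3 * tr1 a b r1 r2 / 2) * quartic a b ^ 3 +
    C (4 * (3 * tr2 a b r0 r1 r2 + a * tr0 a r0 r2)) * quartic a b ^ 2 * cubic a b -
    C (8 * (a * tr1 a b r1 r2 + 6 * b * tr0 a r0 r2)) * quartic a b * cubic a b ^ 2 +
    C (32 * (2 * a * tr2 a b r0 r1 r2 - 3 * b * tr1 a b r1 r2 + 2 * a ^ 2 * tr0 a r0 r2)) *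
      cubic a b ^ 3 - C (μ / 4) * sextic a b ^ 2

/-- The coefficient `B` of `y ^ 2`, a polynomial in `x` with coefficients in `k[t]`. -/
def BPoly (a0 a1 a2 : k) : k[X][X] :=
  let P0 := C (tr0 a a0 a2) * quartic a b ^ 2 +
    4 * C (tr1 a b a1 a2) * quartic a b * cubic a b +
    16 * C (tr2 a b a0 a1 a2 + a * tr0 a a0 a2) * cubic a b ^ 2
  let P1 := C (tr1 a b a1 a2) * quartic a b ^ 2 +
    4 * C (tr2 a b a0 a1 a2) * quartic a b * cubic a b -
    16 * C (b * tr0 a a0 a2) * cubic a b ^ 2
  let P2 := C (tr2 a b a0 a1 a2) * quartic a b ^ 2 -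
    4 * C (a * tr1 a b a1 a2 + b * tr0 a a0 a2) * quartic a b * cubic a b -
    16 * C (b * tr1 a b a1 a2) * cubic a b ^ 2
  C (-(C a * P0 + 2 * P2)) + C (-2 * P1) * X + C P0 * X ^ 2

/-- The polynomial `(F(x) c(t) - F(t) c(x)) / (x - t)` in `x` with coefficients in `k[t]`. -/
def CPoly : k[X][X] :=
  let F := quartic a b
  let c := cubic a b
  C (((c * X - F) * X - 2 * C a * c) * X - 8 * C b * c - C a * F) +
    C ((c * X - F) * X - 2 * C a * c) * X + C (c * X - F) * X ^ 2 + C c * X ^ 3

theorem CPoly_mul : (X - C X) * CPoly a b =
    (quartic a b).map C * C (cubic a b) - C (quartic a b) * (cubic a b).map C := by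
  simp only [CPoly, quartic, cubic, Polynomial.map_add, Polynomial.map_sub, Polynomial.map_mul,
    Polynomial.map_pow, Polynomial.map_X, Polynomial.map_C, Polynomial.map_ofNat, C_add, C_sub,
    C_mul, C_pow, C_ofNat]
  ring

theorem natDegree_le_two (p q r : k[X]) : (C p + C q * X + C r * X ^ 2).natDegree ≤ 2 := by
  compute_degree

theorem natDegree_le_three (p q r s : k[X]) :
    (C p + C q * X + C r * X ^ 2 + C s * X ^ 3).natDegree ≤ 3 := by
  compute_degree

theorem CPoly_natDegree : (CPoly a b).natDegree ≤ 3 := natDegree_le_three _ _ _ _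

theorem BPoly_natDegree (a0 a1 a2 : k) : (BPoly a b a0 a1 a2).natDegree ≤ 2 :=
  natDegree_le_two _ _ _

theorem CPoly_eval : (CPoly a b).eval X = sextic a b := by
  simp only [CPoly, Polynomial.eval_add, Polynomial.eval_mul, Polynomial.eval_pow,
    Polynomial.eval_X, Polynomial.eval_C]
  simp only [sextic, quartic, cubic]
  ring

theorem BPoly_eval (a0 a1 a2 : k) :
    (BPoly a b a0 a1 a2).eval X = sextic a b * hPoly a b a0 a1 a2 := by
  simp only [BPoly, Polynomial.eval_add, Polynomial.eval_mul, Polynomial.eval_pow,
    Polynomial.eval_X, Polynomial.eval_C]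
  simp only [sextic, quartic, cubic, hPoly, C_add, C_sub, C_mul, C_pow, C_ofNat]
  ring

end family

/-- The theorem for the explicit family. -/
theorem family (k : Type) [Field k] [NumberField k] (a b a0 a1 a2 μ : k)
    (h₁ : hPoly a b a0 a1 a2 ≠ 0) (t₀ : AlgebraicClosure k)
    (h₀ : Polynomial.aeval t₀ (hPoly a b a0 a1 a2) = 0)
    (hw : Polynomial.aeval t₀ (sextic a b) ≠ 0)
    (hA : Polynomial.aeval t₀ (APoly a b a0 a1 a2 μ) ≠ 0)
    (f : MvPolynomial (Fin 3) k)
    (hf : Polynomial.aeval (MvPolynomial.X 1) (APoly a b a0 a1 a2 μ) ∣ f)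
    (X : Over (Spec (CommRingCat.of k)))
    (j : openPart (APoly a b a0 a1 a2 μ) (BPoly a b a0 a1 a2) (CPoly a b) 1 f ⟶ X)
    [IsDominant j.left]
    (hj : IsOpenImmersion j.left ∨ (IsSeparated X.hom ∧ NotInvariant _ _ _ _ _ X j)) :
    Dense (QuadPts k X) := by
  refine result k _ _ _ (BPoly_natDegree a b a0 a1 a2) (CPoly_natDegree a b) ?_ t₀ ?_ hA ?_ 1 f
    (by rw [map_one]; exact one_ne_zero) hf X j hj
  · rw [BPoly_eval]
    refine mul_ne_zero ?_ h₁
    intro h
    rw [h, map_zero] at hw
    exact hw rfl
  · rw [BPoly_eval, map_mul, h₀, mul_zero]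
  · rw [CPoly_eval]
    exact hw

end Pool.Agent.Results.MP_89f84f_ag.Fibrations
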