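import Pool.Agent.H.MP_89f84f_ag.q4.BrD

set_option autoImplicit false

/-!
# Quadratic points on simple abelian surfaces (MP_89f84f_ag)

The definitions are in `Pool/Agent/H/MP_89f84f_ag/q4/Stu.lean`.

`S : Period` is a symmetric complex `2 × 2` matrix `τ` with positive definite imaginary part together with an
integer `d ≥ 1`.  It gives the lattice `Λ = Lat S = τ ℤ² + diag (1, d) ℤ²` and the complex abelian surface `ℂ² / Λ` with its
polarisation `H0 S = (Im τ)⁻¹` of type `(1, d)`; `NS S` is its Néron-Severi group, `sq S Γ = Γ²` the self-intersection number and, for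
`Γ ∈ NS S`, `Theta S Γ` is the space of the sections of the totally symmetric line bundle with class `2 Γ`.

`G` is a set of automorphisms of the Néron-Severi group which preserve the intersection numbers and `H0`, and `Fix S G` is the group of the
classes fixed by `G`.  For a subfield `k` of `ℂ`, a `K : KStr S (Fix S G) k` is a `k`-structure on `ℂ² / Λ` for which the classes
in `Fix S G` are defined over `k`, given through theta functions: for all `Γ ∈ Fix S G` a `k`-form `K.R Γ` of the space
`Theta S Γ`, such that `R Γ · R Γ' ⊆ R (Γ + Γ')`, `f 0 ∈ k` for `f ∈ R Γ`, `f (n z) ∈ R (n² Γ)` for `f ∈ R Γ` and `n ∈ ℤ`, and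
`f D_v g - g D_v f ∈ R (2 Γ)` for `f, g ∈ R Γ` and all `v` in some basis of `ℂ²`.

If `A` is any geometrically simple abelian surface over the number field `k ⊆ ℂ` and `λ` a primitive polarisation of `A`, of type `(1, d)`,
then `A (ℂ) = ℂ² / Λ` for such an `S` with `λ = H0 S`.  Let `G` be the image of `Gal (k̄ / k)` in the automorphism group of the
Néron-Severi group `NS (A_k̄) = NS (A_ℂ)`, so that `Fix S G` consists of the classes of the homomorphisms `A → Â` over `k`.  Then the spaces
`R Γ = H⁰ (A, (1, Γ)^* P)`, `Γ ∈ Fix S G` (`P` the Poincaré bundle; `(1, Γ)^* P` is the unique totally symmetric line bundle with class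
`2 Γ`, and rigidified at `0`) are a `K : KStr S (Fix S G) k`.  The complement in `A` of the divisor of a section `f ≠ 0` of `(1, m λ)^* P`,
`m ≥ 1`, is the spectrum of the ring `Coord K m f` and is dense and open in `A` (this paragraph is not formalised).

The hypothesis on `G` says that there are no conjugate classes `Γ`, `Γ' = σ Γ` with `Γ² = Γ'² = b² - 1` and `Γ · Γ' = b²`.  It always holds if `G`
is trivial, for example if `End (A_ℂ) = ℤ`.
-/

namespace Pool.Agent.Results.MP_89f84f_ag.SimpleSurfaces

open Pool.Agent.H.MP_89f84f_ag.SimpleSurfaces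

/-- **Theorem.**  Let `ℂ² / Λ` be a simple complex abelian surface with a polarisation `H0` of type `(1, d)`, `G` a set of automorphisms
of its Néron-Severi group which preserve the intersection numbers and `H0`, and `K` a `k`-structure over a number field
`k ⊆ ℂ` for which the classes fixed by `G` are defined over `k`.  Suppose that `2 d` is not a square, or that the rank of the group of
the classes fixed by `G` is at least two, and that `(Γ - σ Γ)² ≠ - 2` for all `σ ∈ G` and all classes `Γ` for which `Γ² + 1` is a square.  Let `m ≥ 1` and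
`0 ≠ f ∈ K.R (m H0)`.  Then the quadratic points are dense in every `k`-scheme `A` which contains the spectrum of the `k`-algebra
generated by the functions `g / f ^ n`, `g ∈ K.R (n m H0)`, as a dense open subscheme. -/
theorem result (S : Period) (hS : Simple S) (G : Set (Mat → Mat)) (hG : ∀ σ ∈ G, IsAut S σ)
    (hδ : ∀ σ ∈ G, ∀ Γ ∈ NS S, ∀ b : ℕ, sq S Γ + 1 = b ^ 2 → sq S (Γ - σ Γ) ≠ -2)
    (h2 : ¬ IsSquare (2 * S.d) ∨ ∃ H ∈ Fix S G, ∀ r : ℝ, H ≠ (r : ℂ) • H0 S)
    (k : Subfield ℂ) [NumberField k] (K : KStr S (Fix S G) k) (m : ℕ) (hm0 : 0 < m)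
    (f : C2 → ℂ) (hf : f ∈ K.R ((m : ℂ) • H0 S)) (_hf0 : f ≠ 0) :
    QuadDense k (Coord K m f) :=
  main S hS G hG hδ h2 k K m hm0 f hf

end Pool.Agent.Results.MP_89f84f_ag.SimpleSurfaces
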