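import Pool.Agent.H.MP_89f84f_ag.T0.Glue

/-!
# Quadratic points on trace-zero surfaces (MP_89f84f_ag)

Let `k` be a number field, `E : y ^ 2 = x ^ 3 + a x + b` an elliptic curve over `k` with `a ≠ 0` and
`K = k(ξ)` a cubic extension, where `ξ ^ 3 + a ξ + e = 0` with `e ∈ k`. The points of trace zero of
`E` over `K` form an abelian surface `A` over `k`: the kernel of the trace `R_{K/k} E → E`. Three
points of `E` with different abscissas have the sum zero if and only if they are on a line
`y = m x + c`. So the affine surface `S` of the pairs of an abscissa `x ∈ K` with three different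
conjugates and a line `y = m x + c` over `k` with `(m x + c) ^ 2 = x ^ 3 + a x + b` is an open
subscheme of `A`. We show that the quadratic points are dense in every `k`-scheme which contains
`S` as a dense open subscheme.

The proof: the elements `x ∈ K` of trace zero with the second symmetric function `a` are the
points of a conic, which contains the point `ξ`; for each of them `x ^ 3 + a x + b = n` is in `k`,
so the conjugates of the point `(x, √n)` are on the line `y = √n`. For infinitely many of them `n`
is not a square in `k`; then `(x, √n)` gives a quadratic point of `S`, and so do its multiples by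
powers of two. A function which vanishes at all these points is zero, because a curve on `E × E`
which contains infinitely many of these multiples for each power of two does not exist; this is
shown with the invariant differentials.

The condition on `K` is that `a` is the second symmetric function of some `ξ ∈ K` of trace zero
which is not in `k`. It holds if and only if `-3 a` is a norm from `k(√(-3 D))`, where `D` is the
discriminant of `K`, for example for all pure cubic extensions `K = k(∛c)`, which are the ones with
`-3 D` a square (these two remarks are not formalised).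
-/

open AlgebraicGeometry CategoryTheory MvPolynomial

noncomputable section

namespace Pool.Agent.Results.MP_89f84f_ag.TraceZero

section ring

/-- The product of `u 0 + u 1 ξ + u 2 ξ ^ 2` and `v 0 + v 1 ξ + v 2 ξ ^ 2` in the ring
`R[ξ] / (ξ ^ 3 + a ξ + e)`, in the basis `1, ξ, ξ ^ 2`. -/
def mul3 {R : Type} [CommRing R] (a e : R) (u v : Fin 3 → R) : Fin 3 → R :=
  ![u 0 * v 0 - e * (u 1 * v 2 + u 2 * v 1),
    u 0 * v 1 + u 1 * v 0 - a * (u 1 * v 2 + u 2 * v 1) - e * (u 2 * v 2),
    u 0 * v 2 + u 1 * v 1 + u 2 * v 0 - a * (u 2 * v 2)]

variable {k : Type} [Field k]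

/-- The generic element `x = X 0 + X 1 ξ + X 2 ξ ^ 2`. -/
def xGen (k : Type) [Field k] : Fin 3 → MvPolynomial (Fin 6) k := ![X 0, X 1, X 2]

/-- The element `y = m x + c` for the generic element `x` and `m = X 3`, `c = X 4`. -/
def yGen (k : Type) [Field k] : Fin 3 → MvPolynomial (Fin 6) k :=
  ![X 3 * X 0 + X 4, X 3 * X 1, X 3 * X 2]

/-- `y ^ 2 - (x ^ 3 + a x + b)` in `k[X 0, ..., X 5][ξ] / (ξ ^ 3 + a ξ + e)` for the generic `x`
and `y = m x + c`. -/
def equation (a b e : k) : Fin 3 → MvPolynomial (Fin 6) k :=
  mul3 (C a) (C e) (yGen k) (yGen k) -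
    (mul3 (C a) (C e) (xGen k) (mul3 (C a) (C e) (xGen k) (xGen k)) +
      ![C a * X 0 + C b, C a * X 1, C a * X 2])

/-- `N(X 1 - X 2 ξ)`: the product of the differences of the conjugates of the generic `x` is the
product of this and of the product of the differences of the conjugates of `ξ`. -/
def index (a e : k) : MvPolynomial (Fin 6) k := X 1 ^ 3 + C a * X 1 * X 2 ^ 2 + C e * X 2 ^ 3

/-- The coordinate ring of the affine surface `S`: the three coordinates of `equation a b e` are
zero, and `index a e` is invertible, with the inverse `X 5`. -/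
abbrev SRing (a b e : k) : Type :=
  MvPolynomial (Fin 6) k ⧸ Ideal.span
    {equation a b e 0, equation a b e 1, equation a b e 2, X 5 * index a e - 1}

end ring

/-- The points of degree two of a `k`-scheme: those which are the image of `Spec L` for a field
extension `L` of degree two, but not of `Spec k`. -/
def QuadPts (k : Type) [Field k] (A : Over (Spec (CommRingCat.of k))) : Set A.left :=
  {x : A.left |
    (∃ (L : Type) (_ : Field L) (_ : Algebra k L),
      Module.finrank k L = 2 ∧
      ∃ g : Spec (CommRingCat.of L) ⟶ A.left,
        g ≫ A.hom = Spec.map (CommRingCat.ofHom (algebraMap k L)) ∧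
        ∃ p, g.base p = x) ∧
    ¬ ∃ s : Spec (CommRingCat.of k) ⟶ A.left, s ≫ A.hom = 𝟙 _ ∧ ∃ p, s.base p = x}

/-- The meaning of `mul3`. -/
theorem mul3_spec {R : Type} [CommRing R] {a e ξ : R} (hξ : ξ ^ 3 + a * ξ + e = 0)
    (u v : Fin 3 → R) :
    mul3 a e u v 0 + mul3 a e u v 1 * ξ + mul3 a e u v 2 * ξ ^ 2 =
      (u 0 + u 1 * ξ + u 2 * ξ ^ 2) * (v 0 + v 1 * ξ + v 2 * ξ ^ 2) :=
  TZ.vl_mul3 hξ u v

/-- **Theorem.** Let `k` be a number field, `a, b, e ∈ k`, where `a ≠ 0` and the polynomial
`T ^ 3 + a T + e` is irreducible, and let `S` be the affine surface of the pairs of an element `x` of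
`K = k[ξ] / (ξ ^ 3 + a ξ + e)` with three different conjugates and a line `y = m x + c` over `k` with
`(m x + c) ^ 2 = x ^ 3 + a x + b`. In every `k`-scheme `A` which contains `S` as a dense open
subscheme the quadratic points are dense. -/
theorem result (k : Type) [Field k] [NumberField k] (a b e : k) (ha : a ≠ 0)
    (he : Irreducible (Polynomial.X ^ 3 + Polynomial.C a * Polynomial.X + Polynomial.C e))
    (A : Over (Spec (CommRingCat.of k)))
    (j : Spec (CommRingCat.of (SRing a b e)) ⟶ A.left) [IsOpenImmersion j]
    (hj : j ≫ A.hom = Spec.map (CommRingCat.ofHom (algebraMap k (SRing a b e))))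
    (hdense : Dense (Set.range j.base)) : Dense (QuadPts k A) := by
  have hmem : ∀ P : Fin 6 → AlgebraicClosure k,
      P ∈ zeroLocus (AlgebraicClosure k) (Ideal.span
        {equation a b e 0, equation a b e 1, equation a b e 2, X 5 * index a e - 1}) ↔
      TZ.Eqs6 (algebraMap k (AlgebraicClosure k) a) (algebraMap k _ b) (algebraMap k _ e) P := by
    intro P
    have h0 : P ∈ zeroLocus (AlgebraicClosure k) (Ideal.span
        {equation a b e 0, equation a b e 1, equation a b e 2, X 5 * index a e - 1}) ↔
        aeval P (equation a b e 0) = 0 ∧ aeval P (equation a b e 1) = 0 ∧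
          aeval P (equation a b e 2) = 0 ∧ aeval P (X 5 * index a e - 1) = 0 := by
      rw [zeroLocus_span]
      simp
    have h1 : ∀ i, aeval P (equation a b e i) = TZ.eq3 (algebraMap k (AlgebraicClosure k) a)
        (algebraMap k _ b) (algebraMap k _ e) P i := by
      intro i
      fin_cases i <;>
      simp [equation, mul3, xGen, yGen, TZ.eq3, TZ.mul3]
    have h2 : aeval P (X 5 * index a e - 1) = P 5 * TZ.idx (algebraMap k (AlgebraicClosure k) a)
        (algebraMap k _ e) P - 1 := by
      simp [index, TZ.idx]
    rw [h0, h1, h1, h1, h2, sub_eq_zero]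
    unfold TZ.Eqs6
    constructor
    · rintro ⟨e0, e1, e2, e3⟩
      refine ⟨fun i => ?_, e3⟩
      fin_cases i
      · exact e0
      · exact e1
      · exact e2
    · rintro ⟨e0, e3⟩
      exact ⟨e0 0, e0 1, e0 2, e3⟩
  refine TZ.dense_of_points k (AlgebraicClosure k) _ ?_ A j hj hdense
  rintro H ⟨P, hP, hPH⟩
  by_contra hcon
  push Not at hcon
  have h1 := TZ.explicit (F := AlgebraicClosure k) (b := b) ha he
    (MvPolynomial.map (algebraMap k (AlgebraicClosure k)) H) (fun Q hQ hQ2 => by
      rw [MvPolynomial.eval_map, ← aeval_def]
      exact hcon Q ((hmem Q).2 hQ) hQ2) P ((hmem P).1 hP)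
  rw [MvPolynomial.eval_map, ← aeval_def] at h1
  exact hPH h1

/-- For example, the quadratic points are dense in `S` itself. -/
theorem affine (k : Type) [Field k] [NumberField k] (a b e : k) (ha : a ≠ 0)
    (he : Irreducible (Polynomial.X ^ 3 + Polynomial.C a * Polynomial.X + Polynomial.C e)) :
    Dense (QuadPts k (Over.mk (Spec.map (CommRingCat.ofHom (algebraMap k (SRing a b e)))))) :=
  result k a b e ha he _ (𝟙 (Spec (CommRingCat.of (SRing a b e)))) (Category.id_comp _)
    (fun x => subset_closure ⟨x, rfl⟩)

end Pool.Agent.Results.MP_89f84f_ag.TraceZero
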