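import Pool.Agent.H.MP_89f84f_ag.Sch

/-!
# Quadratic points on the Weil restriction of an elliptic curve (MP_89f84f_ag)

`k` is a field of characteristic zero, `K = k(√d)` a quadratic extension, `a, b ∈ K` are nonzero
and `S = Spec (SRing d a b)` is the Weil restriction from `K` to `k` of the affine curve
`y ^ 2 = x ^ 3 + a x + b`. Then the quadratic points are dense in every `k`-scheme which contains
`S` as a dense open subscheme, for example in the abelian surface `R_{K/k} E`, where `E` is the
elliptic curve with this equation.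
-/

open AlgebraicGeometry CategoryTheory MvPolynomial

noncomputable section

namespace Pool.Agent.Results.MP_89f84f_ag.WeilRestriction

section ring

variable {k : Type} [Field k] (d : k)

/-- `K ⊗ k[X₀, X₁, X₂, X₃]`, where `K = k(√d)`. -/
abbrev KPoly : Type := QuadraticAlgebra (MvPolynomial (Fin 4) k) (C d) 0

/-- The generic abscissa `x = X₀ + X₁ √d`. -/
def xGen : KPoly d := ⟨X 0, X 1⟩

/-- The generic ordinate `y = X₂ + X₃ √d`. -/
def yGen : KPoly d := ⟨X 2, X 3⟩

/-- An element of `K = k(√d)` as a constant polynomial. -/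
def const (c : QuadraticAlgebra k d 0) : KPoly d := ⟨C c.re, C c.im⟩

/-- `y ^ 2 - (x ^ 3 + a x + b)` for the generic `x` and `y`. -/
def equation (a b : QuadraticAlgebra k d 0) : KPoly d :=
  yGen d ^ 2 - (xGen d ^ 3 + const d a * xGen d + const d b)

/-- The coordinate ring of the Weil restriction of the affine curve `y ^ 2 = x ^ 3 + a x + b`:
the coordinates of `equation d a b` with respect to the basis `1, √d` are zero. -/
abbrev SRing (a b : QuadraticAlgebra k d 0) : Type :=
  MvPolynomial (Fin 4) k ⧸ Ideal.span {(equation d a b).re, (equation d a b).im}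

variable {d}

theorem equation_re (a b : QuadraticAlgebra k d 0) : (equation d a b).re =
    X 2 ^ 2 + C d * X 3 ^ 2 - (X 0 ^ 3 + 3 * C d * X 0 * X 1 ^ 2 + C a.re * X 0 +
      C d * C a.im * X 1 + C b.re) := by
  simp only [equation, xGen, yGen, const, pow_succ, pow_zero, one_mul, QuadraticAlgebra.re_sub,
    QuadraticAlgebra.re_add, QuadraticAlgebra.re_mul, QuadraticAlgebra.im_mul, zero_mul, add_zero]
  ring

theorem equation_im (a b : QuadraticAlgebra k d 0) : (equation d a b).im =
    2 * X 2 * X 3 - (3 * X 0 ^ 2 * X 1 + C d * X 1 ^ 3 + C a.re * X 1 + C a.im * X 0 + C b.im) := by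
  simp only [equation, xGen, yGen, const, pow_succ, pow_zero, one_mul, QuadraticAlgebra.im_sub,
    QuadraticAlgebra.im_add, QuadraticAlgebra.re_mul, QuadraticAlgebra.im_mul, zero_mul, add_zero]
  ring

/-- The points of `S` with coordinates in a commutative `k`-algebra `T` are the points of the curve
with coordinates in `K ⊗ T`. -/
theorem weil_restriction (T : Type) [CommRing T] [Algebra k T] (a b : QuadraticAlgebra k d 0)
    (P : Fin 4 → T) :
    (aeval P (equation d a b).re = 0 ∧ aeval P (equation d a b).im = 0) ↔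
      (⟨P 2, P 3⟩ : QuadraticAlgebra T (algebraMap k T d) 0) ^ 2 =
        ⟨P 0, P 1⟩ ^ 3 + ⟨algebraMap k T a.re, algebraMap k T a.im⟩ * ⟨P 0, P 1⟩ +
          ⟨algebraMap k T b.re, algebraMap k T b.im⟩ := by
  rw [equation_re, equation_im, ← sub_eq_zero (b := _ + _), QuadraticAlgebra.ext_iff]
  simp only [map_sub, map_add, map_mul, aeval_X, aeval_C, map_ofNat, pow_succ, pow_zero,
    one_mul, QuadraticAlgebra.re_sub, QuadraticAlgebra.im_sub, QuadraticAlgebra.re_add,
    QuadraticAlgebra.im_add, QuadraticAlgebra.re_mul, QuadraticAlgebra.im_mul, zero_mul, add_zero,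
    QuadraticAlgebra.re_zero, QuadraticAlgebra.im_zero]
  constructor
  · rintro ⟨h1, h2⟩
    exact ⟨by linear_combination h1, by linear_combination h2⟩
  · rintro ⟨h1, h2⟩
    exact ⟨by linear_combination h1, by linear_combination h2⟩

end ring

/-- The points of degree two of a `k`-scheme: those which are the image of `Spec L` for a field
extension `L` of degree two, but not of `Spec k`. -/
def QuadPts (k : Type) [Field k] (A : Over (Spec (CommRingCat.of k))) : Set A.left :=
  {x : A.left |
    (∃ (L : Type) (_ : Field L) (_ : Algebra k L),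
      Module.finrank k L = 2 ∧
      ∃ g : Spec (CommRingCat.of L) ⟶ A.left,
        g ≫ A.hom = Spec.map (CommRingCat.ofHom (algebraMap k L)) ∧
        ∃ p, g.base p = x) ∧
    ¬ ∃ s : Spec (CommRingCat.of k) ⟶ A.left, s ≫ A.hom = 𝟙 _ ∧ ∃ p, s.base p = x}

/-- **Theorem.** Let `k` be a field of characteristic zero, `K = k(√d)` a quadratic extension,
`a, b ∈ K` nonzero and `S` the Weil restriction from `K` to `k` of the affine curve
`y ^ 2 = x ^ 3 + a x + b`. In every `k`-scheme `A` which contains `S` as a dense open subscheme the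
quadratic points are dense. -/
theorem result (k : Type) [Field k] [CharZero k] (d : k) (hd : ¬ IsSquare d)
    (a b : QuadraticAlgebra k d 0) (ha : a ≠ 0) (hb : b ≠ 0)
    (A : Over (Spec (CommRingCat.of k)))
    (j : Spec (CommRingCat.of (SRing d a b)) ⟶ A.left) [IsOpenImmersion j]
    (hj : j ≫ A.hom = Spec.map (CommRingCat.ofHom (algebraMap k (SRing d a b))))
    (hdense : Dense (Set.range j.base)) : Dense (QuadPts k A) := by
  have hd' : ∀ r : k, r ^ 2 ≠ d := fun r h => hd ⟨r, by rw [← h, sq]⟩
  have ha' : a.re ≠ 0 ∨ a.im ≠ 0 := by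
    by_contra hcon
    push Not at hcon
    exact ha (QuadraticAlgebra.ext hcon.1 hcon.2)
  have hb' : b.re ≠ 0 ∨ b.im ≠ 0 := by
    by_contra hcon
    push Not at hcon
    exact hb (QuadraticAlgebra.ext hcon.1 hcon.2)
  have hmem : ∀ P : Fin 4 → AlgebraicClosure k,
      P ∈ zeroLocus (AlgebraicClosure k)
        (Ideal.span {(equation d a b).re, (equation d a b).im}) ↔
      WRes.Eqs (algebraMap k (AlgebraicClosure k) d) (algebraMap k _ a.re) (algebraMap k _ a.im)
        (algebraMap k _ b.re) (algebraMap k _ b.im) P := by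
    intro P
    have h0 : P ∈ zeroLocus (AlgebraicClosure k)
        (Ideal.span {(equation d a b).re, (equation d a b).im}) ↔
        aeval P (equation d a b).re = 0 ∧ aeval P (equation d a b).im = 0 := by
      rw [zeroLocus_span]
      simp
    rw [h0, equation_re, equation_im]
    simp only [map_sub, map_add, map_mul, map_pow, aeval_X, aeval_C, map_ofNat]
    rw [sub_eq_zero, sub_eq_zero]
    exact Iff.rfl
  refine WRes.dense_of_points k (AlgebraicClosure k) _ ?_ A j hj hdense
  rintro H ⟨P, hP, hPH⟩
  by_contra hcon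
  push Not at hcon
  have h1 := WRes.explicit (F := AlgebraicClosure k) d hd' a.re a.im b.re b.im ha' hb'
    (MvPolynomial.map (algebraMap k (AlgebraicClosure k)) H) (fun Q hQ hQ2 => by
      rw [MvPolynomial.eval_map, ← aeval_def]
      exact hcon Q ((hmem Q).2 hQ) hQ2) P ((hmem P).1 hP)
  rw [MvPolynomial.eval_map, ← aeval_def] at h1
  exact hPH h1

/-- For example, the quadratic points are dense in `S` itself. -/
theorem affine (k : Type) [Field k] [CharZero k] (d : k) (hd : ¬ IsSquare d)
    (a b : QuadraticAlgebra k d 0) (ha : a ≠ 0) (hb : b ≠ 0) :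
    Dense (QuadPts k (Over.mk (Spec.map (CommRingCat.ofHom (algebraMap k (SRing d a b)))))) :=
  result k d hd a b ha hb _ (𝟙 (Spec (CommRingCat.of (SRing d a b)))) (Category.id_comp _)
    (fun x => subset_closure ⟨x, rfl⟩)

end Pool.Agent.Results.MP_89f84f_ag.WeilRestriction
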